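import Mathlib

/-!
# A bound for the partition function in terms of the minimal cut

For a weighted graph with `n` vertices all of whose cuts have weight at least `κ` the sum of
`exp (-2 cut)` over the nonconstant configurations is at most
`(1 + exp (-κ)) ^ n + (1 - exp (-κ)) ^ n - 2`, its value for the cycle with weights `κ / 2`.
-/

set_option autoImplicit false

namespace Pool.Agent.Lib.MP_f82811_pr.LT

open Finset

set_option linter.unusedSectionVars false

section defs
variable {V : Type*} [Fintype V] [DecidableEq V]

/-- Twice the weight of the cut given by the configuration. -/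
def K (A : V → V → ℝ) (σ : V → Bool) : ℝ := ∑ u, ∑ v, if σ u = σ v then 0 else A u v

/-- The configuration is not constant. -/
def Nc (σ : V → Bool) : Prop := ∃ u v, σ u ≠ σ v

instance (σ : V → Bool) : Decidable (Nc σ) := by unfold Nc; infer_instance

/-- The bound. -/
noncomputable def Gn (n : ℕ) (y : ℝ) : ℝ := (1 + Real.exp (-y)) ^ n + (1 - Real.exp (-y)) ^ n - 2

theorem K_smul (t : ℝ) (A : V → V → ℝ) (σ : V → Bool) :
    K (fun u v => t * A u v) σ = t * K A σ := by
  unfold K
  rw [Finset.mul_sum]
  refine Finset.sum_congr rfl fun u _ => ?_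
  rw [Finset.mul_sum]
  refine Finset.sum_congr rfl fun v _ => ?_
  split_ifs
  · rw [mul_zero]
  · rfl

theorem K_nonneg {A : V → V → ℝ} (hA : ∀ u v, 0 ≤ A u v) (σ : V → Bool) : 0 ≤ K A σ :=
  Finset.sum_nonneg fun u _ => Finset.sum_nonneg fun v _ => by
    split_ifs
    · exact le_rfl
    · exact hA u v

/-! ### Contraction of a pair -/

/-- the contraction of `v` to `u` -/
def pr (u v : V) (h : u ≠ v) (x : V) : {x : V // x ≠ v} :=
  if hx : x = v then ⟨u, h⟩ else ⟨x, hx⟩

theorem pr_self (u v : V) (h : u ≠ v) : pr u v h v = ⟨u, h⟩ := dif_pos rfl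

theorem pr_ne (u v : V) (h : u ≠ v) {x : V} (hx : x ≠ v) : pr u v h x = ⟨x, hx⟩ := dif_neg hx

/-- the contracted matrix -/
noncomputable def con (A : V → V → ℝ) (u v : V) (h : u ≠ v) (a b : {x : V // x ≠ v}) : ℝ :=
  if a = b then 0 else
    ∑ x, ∑ y, if pr u v h x = a ∧ pr u v h y = b then A x y else 0

theorem con_symm {A : V → V → ℝ} (hs : ∀ u v, A u v = A v u) (u v : V) (h : u ≠ v)
    (a b : {x : V // x ≠ v}) : con A u v h a b = con A u v h b a := by
  unfold con
  by_cases hab : a = b
  · rw [if_pos hab, if_pos hab.symm]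
  · rw [if_neg hab, if_neg (Ne.symm hab), Finset.sum_comm]
    refine Finset.sum_congr rfl fun y _ => Finset.sum_congr rfl fun x _ => ?_
    by_cases h1 : pr u v h x = a ∧ pr u v h y = b
    · rw [if_pos h1, if_pos ⟨h1.2, h1.1⟩, hs]
    · rw [if_neg h1, if_neg fun h2 => h1 ⟨h2.2, h2.1⟩]

theorem con_nonneg {A : V → V → ℝ} (hA : ∀ u v, 0 ≤ A u v) (u v : V) (h : u ≠ v)
    (a b : {x : V // x ≠ v}) : 0 ≤ con A u v h a b := by
  unfold con
  split_ifs
  · exact le_rfl
  · exact Finset.sum_nonneg fun x _ => Finset.sum_nonneg fun y _ => by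
      split_ifs
      · exact hA x y
      · exact le_rfl

theorem con_diag (A : V → V → ℝ) (u v : V) (h : u ≠ v) (a : {x : V // x ≠ v}) :
    con A u v h a a = 0 := if_pos rfl

theorem K_con (A : V → V → ℝ) (u v : V) (h : u ≠ v) (τ : {x : V // x ≠ v} → Bool) :
    K (con A u v h) τ = K A (fun x => τ (pr u v h x)) := by
  unfold K
  have e1 : ∀ a b : {x : V // x ≠ v}, (if τ a = τ b then 0 else con A u v h a b) =
      ∑ x, ∑ y, if pr u v h x = a ∧ pr u v h y = b then
        (if τ (pr u v h x) = τ (pr u v h y) then 0 else A x y) else 0 := by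
    intro a b
    by_cases hab : τ a = τ b
    · rw [if_pos hab]
      symm
      refine Finset.sum_eq_zero fun x _ => Finset.sum_eq_zero fun y _ => ?_
      split_ifs with h1 h2
      · rfl
      · exact absurd (by rw [h1.1, h1.2]; exact hab) h2
      · rfl
    · rw [if_neg hab]
      have hne : a ≠ b := fun h' => hab (by rw [h'])
      unfold con
      rw [if_neg hne]
      refine Finset.sum_congr rfl fun x _ => Finset.sum_congr rfl fun y _ => ?_
      by_cases h1 : pr u v h x = a ∧ pr u v h y = b
      · rw [if_pos h1, if_pos h1, if_neg (by rw [h1.1, h1.2]; exact hab)]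
      · rw [if_neg h1, if_neg h1]
  rw [Finset.sum_congr rfl fun a _ => Finset.sum_congr rfl fun b _ => e1 a b]
  -- move the sums over `a`, `b` inside
  have e2 : ∀ a : {x : V // x ≠ v}, (∑ b : {x : V // x ≠ v}, ∑ x, ∑ y,
      if pr u v h x = a ∧ pr u v h y = b then
        (if τ (pr u v h x) = τ (pr u v h y) then 0 else A x y) else 0) =
      ∑ x, ∑ y, if pr u v h x = a then
        (if τ (pr u v h x) = τ (pr u v h y) then 0 else A x y) else 0 := by
    intro a
    rw [Finset.sum_comm]
    refine Finset.sum_congr rfl fun x _ => ?_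
    rw [Finset.sum_comm]
    refine Finset.sum_congr rfl fun y _ => ?_
    by_cases h1 : pr u v h x = a
    · rw [if_pos h1]
      simp only [h1, true_and]
      rw [Finset.sum_ite_eq]
      simp
    · rw [if_neg h1]
      simp [h1]
  rw [Finset.sum_congr rfl fun a _ => e2 a, Finset.sum_comm]
  refine Finset.sum_congr rfl fun x _ => ?_
  rw [Finset.sum_comm]
  refine Finset.sum_congr rfl fun y _ => ?_
  rw [Finset.sum_ite_eq]
  simp

theorem nc_comp (u v : V) (h : u ≠ v) (τ : {x : V // x ≠ v} → Bool) :
    Nc (fun x => τ (pr u v h x)) ↔ Nc τ := by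
  constructor
  · rintro ⟨x, y, hxy⟩
    exact ⟨_, _, hxy⟩
  · rintro ⟨a, b, hab⟩
    refine ⟨a.1, b.1, ?_⟩
    change τ (pr u v h a.1) ≠ τ (pr u v h b.1)
    rw [pr_ne u v h a.2, pr_ne u v h b.2]
    exact hab

/-- the sum over the configurations with equal values at `u`, `v` -/
theorem sum_con (u v : V) (h : u ≠ v) (F : (V → Bool) → ℝ) :
    ∑ σ ∈ univ.filter (fun σ : V → Bool => Nc σ ∧ σ u = σ v), F σ =
      ∑ τ ∈ univ.filter (fun τ : {x : V // x ≠ v} → Bool => Nc τ),
        F (fun x => τ (pr u v h x)) := by
  refine Finset.sum_bij' (fun σ _ => fun a : {x : V // x ≠ v} => σ a.1)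
    (fun τ _ => fun x => τ (pr u v h x)) ?_ ?_ ?_ ?_ ?_
  · intro σ hσ
    rw [mem_filter] at hσ ⊢
    refine ⟨mem_univ _, ?_⟩
    rw [← nc_comp u v h]
    have e : (fun x => σ (pr u v h x).1) = σ := by
      funext x
      by_cases hx : x = v
      · rw [hx, pr_self]; exact hσ.2.2
      · rw [pr_ne u v h hx]
    rw [e]
    exact hσ.2.1
  · intro τ hτ
    rw [mem_filter] at hτ ⊢
    refine ⟨mem_univ _, (nc_comp u v h τ).2 hτ.2, ?_⟩
    change τ (pr u v h u) = τ (pr u v h v)
    rw [pr_self, pr_ne u v h h]
  · intro σ hσ
    rw [mem_filter] at hσ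
    funext x
    by_cases hx : x = v
    · simp only
      rw [hx, pr_self]; exact hσ.2.2
    · simp only
      rw [pr_ne u v h hx]
  · intro τ _
    funext a
    simp only
    rw [pr_ne u v h a.2]
  · intro σ hσ
    rw [mem_filter] at hσ
    congr 1
    funext x
    by_cases hx : x = v
    · rw [hx, pr_self]; exact hσ.2.2.symm
    · rw [pr_ne u v h hx]

end defs

/-! ### The function `Gn` -/

theorem hasDerivAt_Gn (n : ℕ) (hn : 1 ≤ n) (κ t : ℝ) :
    HasDerivAt (fun t => Gn n (t * κ)) (-(n * κ) * (Gn n (t * κ) - Gn (n - 1) (t * κ))) t := by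
  obtain ⟨m, rfl⟩ : ∃ m, n = m + 1 := ⟨n - 1, by omega⟩
  unfold Gn
  have h1 : HasDerivAt (fun t : ℝ => Real.exp (-(t * κ))) (Real.exp (-(t * κ)) * (-κ)) t := by
    exact (hasDerivAt_mul_const κ).fun_neg.exp
  have h2 := ((h1.const_add 1).pow (m + 1)).add ((h1.const_sub 1).pow (m + 1))
  have h3 := h2.sub_const 2
  refine h3.congr_deriv ?_
  simp only [Nat.add_sub_cancel]
  push_cast
  ring

theorem Gn_succ_sub (m : ℕ) (y : ℝ) : Gn (m + 1) y - Gn m y =
    Real.exp (-y) * ((1 + Real.exp (-y)) ^ m - (1 - Real.exp (-y)) ^ m) := by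
  unfold Gn
  ring

theorem Gn_mono (m : ℕ) {y : ℝ} (hy : 0 ≤ y) : Gn m y ≤ Gn (m + 1) y := by
  have h := Gn_succ_sub m y
  have h0 := Real.exp_pos (-y)
  have h1 : Real.exp (-y) ≤ 1 := Real.exp_le_one_iff.2 (by linarith)
  have h2 : (1 - Real.exp (-y)) ^ m ≤ (1 + Real.exp (-y)) ^ m :=
    pow_le_pow_left₀ (by linarith) (by linarith) m
  have h3 : 0 ≤ Real.exp (-y) * ((1 + Real.exp (-y)) ^ m - (1 - Real.exp (-y)) ^ m) :=
    mul_nonneg h0.le (by linarith)
  linarith

/-- **The bound.** -/
theorem count : ∀ (n : ℕ), 1 ≤ n → ∀ (V : Type*) [Fintype V] [DecidableEq V],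
    Fintype.card V = n → ∀ (A : V → V → ℝ), (∀ u v, A u v = A v u) → (∀ u v, 0 ≤ A u v) →
    (∀ u, A u u = 0) → ∀ κ : ℝ, 0 ≤ κ → (∀ σ : V → Bool, Nc σ → 2 * κ ≤ K A σ) →
    ∑ σ ∈ univ.filter (fun σ : V → Bool => Nc σ), Real.exp (-K A σ) ≤ Gn n κ := by
  intro n hn
  induction n, hn using Nat.le_induction with
  | base =>
    intro V _ _ hV A _ _ _ κ _ _
    have h1 : univ.filter (fun σ : V → Bool => Nc σ) = ∅ := by
      rw [filter_eq_empty_iff]
      rintro σ - ⟨u, v, huv⟩
      have : Subsingleton V := Fintype.card_le_one_iff_subsingleton.1 hV.le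
      exact huv (by rw [Subsingleton.elim u v])
    rw [h1, Finset.sum_empty]
    unfold Gn
    simp
    linarith
  | succ n hn ih =>
    intro V _ _ hV A hs hA hd κ hκ hcut
    set S : ℝ := ∑ u, ∑ v, A u v with hS
    set g : ℝ → ℝ := fun t => ∑ σ ∈ univ.filter (fun σ : V → Bool => Nc σ),
      Real.exp (-(t * K A σ)) with hg
    set g' : ℝ → ℝ := fun t => ∑ σ ∈ univ.filter (fun σ : V → Bool => Nc σ),
      Real.exp (-(t * K A σ)) * (-K A σ) with hg'
    have hderiv : ∀ t, HasDerivAt g (g' t) t := by
      intro t
      rw [hg, hg']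
      apply HasDerivAt.fun_sum
      intro σ _
      exact (hasDerivAt_mul_const (K A σ)).fun_neg.exp
    -- contraction
    have hcon : ∀ t, 0 ≤ t → S * g t + g' t ≤ S * Gn n (t * κ) := by
      intro t ht
      have h1 : ∀ u v, A u v * ∑ σ ∈ univ.filter (fun σ : V → Bool => Nc σ ∧ σ u = σ v),
          Real.exp (-(t * K A σ)) ≤ A u v * Gn n (t * κ) := by
        intro u v
        by_cases huv : u = v
        · rw [huv, hd, zero_mul, zero_mul]
        · apply mul_le_mul_of_nonneg_left _ (hA u v)
          rw [sum_con u v huv]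
          have h2 := ih {x : V // x ≠ v} (by
            rw [Fintype.card_subtype_compl, hV, Fintype.card_subtype_eq]; omega)
            (con (fun x y => t * A x y) u v huv)
            (con_symm (fun x y => by rw [hs]) u v huv)
            (con_nonneg (fun x y => mul_nonneg ht (hA x y)) u v huv)
            (con_diag _ u v huv) (t * κ) (mul_nonneg ht hκ) (by
              intro τ hτ
              rw [K_con, K_smul]
              have := hcut _ ((nc_comp u v huv τ).2 hτ)
              calc 2 * (t * κ) = t * (2 * κ) := by ring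
                _ ≤ _ := mul_le_mul_of_nonneg_left this ht)
          refine le_trans (le_of_eq ?_) h2
          refine Finset.sum_congr rfl fun τ _ => ?_
          rw [K_con, K_smul]
      have h2 : ∑ u, ∑ v, A u v * ∑ σ ∈ univ.filter (fun σ : V → Bool => Nc σ ∧ σ u = σ v),
          Real.exp (-(t * K A σ)) = S * g t + g' t := by
        have h3 : ∀ u v, A u v * ∑ σ ∈ univ.filter (fun σ : V → Bool => Nc σ ∧ σ u = σ v),
            Real.exp (-(t * K A σ)) = ∑ σ ∈ univ.filter (fun σ : V → Bool => Nc σ),
              Real.exp (-(t * K A σ)) * (A u v - if σ u = σ v then 0 else A u v) := by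
          intro u v
          rw [← Finset.filter_filter, Finset.sum_filter, Finset.mul_sum]
          refine Finset.sum_congr rfl fun σ _ => ?_
          split_ifs <;> ring
        rw [Finset.sum_congr rfl fun u _ => Finset.sum_congr rfl fun v _ => h3 u v]
        have h4 : ∑ u, ∑ v, ∑ σ ∈ univ.filter (fun σ : V → Bool => Nc σ),
              Real.exp (-(t * K A σ)) * (A u v - if σ u = σ v then 0 else A u v) =
            ∑ σ ∈ univ.filter (fun σ : V → Bool => Nc σ), Real.exp (-(t * K A σ)) *
              (S - K A σ) := by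
          have h5 : ∀ u, ∑ v, ∑ σ ∈ univ.filter (fun σ : V → Bool => Nc σ),
              Real.exp (-(t * K A σ)) * (A u v - if σ u = σ v then 0 else A u v) =
              ∑ σ ∈ univ.filter (fun σ : V → Bool => Nc σ), ∑ v,
              Real.exp (-(t * K A σ)) * (A u v - if σ u = σ v then 0 else A u v) := fun u =>
            Finset.sum_comm
          rw [Finset.sum_congr rfl fun u _ => h5 u, Finset.sum_comm]
          refine Finset.sum_congr rfl fun σ _ => ?_
          have h6 : S - K A σ = ∑ u, ∑ v, (A u v - if σ u = σ v then 0 else A u v) := by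
            rw [hS]
            unfold K
            rw [← Finset.sum_sub_distrib]
            refine Finset.sum_congr rfl fun u _ => ?_
            rw [← Finset.sum_sub_distrib]
          rw [h6, Finset.mul_sum]
          refine Finset.sum_congr rfl fun u _ => ?_
          rw [Finset.mul_sum]
        rw [h4, hg, hg', Finset.mul_sum, ← Finset.sum_add_distrib]
        refine Finset.sum_congr rfl fun σ _ => ?_
        ring
      rw [← h2, hS, Finset.sum_mul]
      refine Finset.sum_le_sum fun u _ => ?_
      rw [Finset.sum_mul]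
      exact Finset.sum_le_sum fun v _ => h1 u v
    -- the total weight
    have hSn : ((n + 1 : ℕ) : ℝ) * κ ≤ S := by
      have h1 : ∀ u, κ ≤ ∑ v, A u v := by
        intro u
        obtain ⟨v0, hv0⟩ : ∃ v, v ≠ u := by
          by_contra hc
          push Not at hc
          have : Fintype.card V ≤ 1 := Fintype.card_le_one_iff.2 fun a b => by
            rw [hc a, hc b]
          omega
        have h2 := hcut (fun x => decide (x = u)) ⟨u, v0, by simp [hv0]⟩
        have h3 : K A (fun x => decide (x = u)) = 2 * ∑ v, A u v := by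
          unfold K
          have h4 : ∀ a, ∑ b, (if decide (a = u) = decide (b = u) then 0 else A a b) =
              (if a = u then ∑ v, A u v else 0) + (if a = u then 0 else A a u) := by
            intro a
            by_cases ha : a = u
            · subst ha
              rw [if_pos rfl, if_pos rfl, add_zero]
              refine Finset.sum_congr rfl fun b _ => ?_
              by_cases hb : b = a
              · subst hb; simp [hd]
              · simp [hb]
            · rw [if_neg ha, if_neg ha, zero_add]
              have h5 : ∀ b, (if decide (a = u) = decide (b = u) then 0 else A a b) =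
                  if b = u then A a b else 0 := by
                intro b
                by_cases hb : b = u
                · simp [hb, ha]
                · simp [hb, ha]
              rw [Finset.sum_congr rfl fun b _ => h5 b, Finset.sum_ite_eq' univ u (fun b => A a b)]
              simp
          rw [Finset.sum_congr rfl fun a _ => h4 a, Finset.sum_add_distrib,
            Finset.sum_ite_eq' univ u (fun _ => ∑ v, A u v)]
          have h6 : ∀ a, (if a = u then 0 else A a u) = A u a := by
            intro a
            by_cases ha : a = u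
            · rw [if_pos ha, ha, hd]
            · rw [if_neg ha, hs]
          rw [Finset.sum_congr rfl fun a _ => h6 a]
          simp
          ring
        rw [h3] at h2
        linarith
      calc ((n + 1 : ℕ) : ℝ) * κ = ∑ _u : V, κ := by
            rw [Finset.sum_const, card_univ, hV, nsmul_eq_mul]
        _ ≤ S := Finset.sum_le_sum fun u _ => h1 u
    -- comparison
    set φ : ℝ → ℝ := fun t => Real.exp (S * t) * (Gn (n + 1) (t * κ) - g t) with hφ
    have hφd : ∀ t, HasDerivAt φ (Real.exp (S * t) * S * (Gn (n + 1) (t * κ) - g t) +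
        Real.exp (S * t) * (-((n + 1 : ℕ) * κ) * (Gn (n + 1) (t * κ) - Gn (n + 1 - 1) (t * κ)) -
          g' t)) t := by
      intro t
      have h0 : HasDerivAt (fun t : ℝ => Real.exp (S * t)) (Real.exp (S * t) * S) t := by
        have : HasDerivAt (fun t : ℝ => S * t) S t := by
          simpa using (hasDerivAt_id t).const_mul S
        exact this.exp
      exact h0.mul ((hasDerivAt_Gn (n + 1) (by omega) κ t).sub (hderiv t))
    have hmono : MonotoneOn φ (Set.Icc 0 1) := by
      apply monotoneOn_of_deriv_nonneg (convex_Icc 0 1)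
      · exact fun t _ => (hφd t).continuousAt.continuousWithinAt
      · exact fun t _ => (hφd t).differentiableAt.differentiableWithinAt
      · intro t ht
        rw [interior_Icc, Set.mem_Ioo] at ht
        rw [(hφd t).deriv]
        have h1 := hcon t ht.1.le
        have h2 := Gn_mono n (mul_nonneg ht.1.le hκ)
        rw [Nat.add_sub_cancel]
        have h3 : 0 ≤ (S - ((n + 1 : ℕ) : ℝ) * κ) * (Gn (n + 1) (t * κ) - Gn n (t * κ)) :=
          mul_nonneg (by linarith) (by linarith)
        have h4 : 0 ≤ S * (Gn (n + 1) (t * κ) - g t) +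
            (-(((n + 1 : ℕ) : ℝ) * κ) * (Gn (n + 1) (t * κ) - Gn n (t * κ)) - g' t) := by
          nlinarith
        have h5 := Real.exp_pos (S * t)
        have h6 := mul_nonneg h5.le h4
        calc (0 : ℝ) ≤ _ := h6
          _ = _ := by ring
    have h01 := hmono (Set.left_mem_Icc.2 zero_le_one) (Set.right_mem_Icc.2 zero_le_one)
      zero_le_one
    have hφ0 : φ 0 = 0 := by
      have hg0 : g 0 = 2 ^ (n + 1) - 2 := by
        rw [hg]
        simp only [zero_mul, neg_zero, Real.exp_zero]
        rw [Finset.sum_const, nsmul_eq_mul, mul_one]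
        have h1 : (univ.filter (fun σ : V → Bool => Nc σ)).card +
            (univ.filter (fun σ : V → Bool => ¬ Nc σ)).card = 2 ^ (n + 1) := by
          rw [Finset.card_filter_add_card_filter_not, card_univ, Fintype.card_fun, hV]
          simp
        have h2 : (univ.filter (fun σ : V → Bool => ¬ Nc σ)).card = 2 := by
          have hne : Nonempty V := Fintype.card_pos_iff.1 (by omega)
          have h3 : univ.filter (fun σ : V → Bool => ¬ Nc σ) =
              {(fun _ => true), (fun _ => false)} := by
            ext σ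
            simp only [mem_filter, mem_univ, true_and, mem_insert, mem_singleton]
            constructor
            · intro hσ
              unfold Nc at hσ
              push Not at hσ
              obtain ⟨x⟩ := hne
              cases hx : σ x
              · right; funext y; rw [hσ y x, hx]
              · left; funext y; rw [hσ y x, hx]
            · rintro (rfl | rfl) <;> rintro ⟨u, v, huv⟩ <;> exact huv rfl
          rw [h3, card_pair]
          intro h4
          obtain ⟨x⟩ := hne
          have := congrFun h4 x
          simp at this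
        rw [h2] at h1
        have h5 : (((univ.filter (fun σ : V → Bool => Nc σ)).card : ℕ) : ℝ) + 2 =
            2 ^ (n + 1) := by exact_mod_cast h1
        linarith
      rw [hφ]
      simp only
      rw [hg0, zero_mul]
      unfold Gn
      rw [neg_zero, Real.exp_zero]
      norm_num
    rw [hφ0] at h01
    have h7 : 0 ≤ Gn (n + 1) (1 * κ) - g 1 := by
      by_contra hc
      push Not at hc
      have h8 : φ 1 < 0 := mul_neg_of_pos_of_neg (Real.exp_pos _) hc
      linarith
    rw [one_mul] at h7
    have h9 : g 1 = ∑ σ ∈ univ.filter (fun σ : V → Bool => Nc σ), Real.exp (-K A σ) := by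
      rw [hg]
      simp only [one_mul]
    rw [h9] at h7
    linarith

end Pool.Agent.Lib.MP_f82811_pr.LT
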