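import Pool.Agent.Lib.MP_f82811_pr.HT.Path
import Pool.Agent.Lib.MP_f82811_pr.LT.Count

/-!
# Low temperature: the criterion

The gap does not increase when the weight is multiplied by a function `r ≤ 1` which is `1` on the
constant configurations, provided the mass lost is small compared with the smallest relative loss
at a nonconstant configuration.
-/

set_option autoImplicit false

namespace Pool.Agent.Lib.MP_f82811_pr.LT

open Finset HT

variable {V : Type*} [Fintype V] [DecidableEq V] {w r : (V → Bool) → ℝ}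

/-- Flipping one spin of a constant configuration. -/
theorem nc_flip (hcard : 2 ≤ Fintype.card V) (k : V) {σ : V → Bool} (h : ¬ Nc σ) :
    Nc (flip k σ) := by
  obtain ⟨v, hv⟩ : ∃ v, v ≠ k := by
    by_contra hc
    push Not at hc
    have : Fintype.card V ≤ 1 := Fintype.card_le_one_iff.2 fun a b => by
      rw [hc a, hc b]
    omega
  refine ⟨k, v, ?_⟩
  unfold flip
  rw [Function.update_self, Function.update_of_ne hv]
  have h1 : σ k = σ v := by
    by_contra hc
    exact h ⟨k, v, hc⟩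
  rw [h1]
  cases σ v <;> simp

/-- The bracket. -/
theorem bracket (hcard : 2 ≤ Fintype.card V) (hw : ∀ σ, 0 < w σ) {m : ℝ} (hm : 0 ≤ m)
    (hmax : ∀ σ τ, Nc σ → ¬ Nc τ → w σ ≤ m * w τ)
    (hr1 : ∀ σ, r σ ≤ 1) {q : ℝ} (hq0 : 0 ≤ q) (hq : ∀ σ, Nc σ → q ≤ 1 - r σ) (k : V)
    (σ : V → Bool) :
    q * (w σ + w (flip k σ)) ≤
      (1 + m) * (w (flip k σ) * (1 - r σ) + w σ * (1 - r (flip k σ))) := by
  have a0 := hw σ
  have b0 := hw (flip k σ)
  have f1 := mul_nonneg a0.le (sub_nonneg.2 (hr1 (flip k σ)))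
  have f2 := mul_nonneg b0.le (sub_nonneg.2 (hr1 σ))
  by_cases h1 : Nc σ
  · have e1 := mul_le_mul_of_nonneg_left (hq _ h1) b0.le
    by_cases h2 : Nc (flip k σ)
    · have e2 := mul_le_mul_of_nonneg_left (hq _ h2) a0.le
      have e3 := mul_nonneg hm (add_nonneg f2 f1)
      nlinarith
    · have e3 := mul_le_mul_of_nonneg_left (hmax σ _ h1 h2) hq0
      have e4 := mul_le_mul_of_nonneg_left e1 (by linarith : (0 : ℝ) ≤ 1 + m)
      have e5 := mul_nonneg (by linarith : (0 : ℝ) ≤ 1 + m) f1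
      nlinarith
  · have h2 := nc_flip hcard k h1
    have e1 := mul_le_mul_of_nonneg_left (hq _ h2) a0.le
    have e3 := mul_le_mul_of_nonneg_left (hmax (flip k σ) _ h2 h1) hq0
    have e4 := mul_le_mul_of_nonneg_left e1 (by linarith : (0 : ℝ) ≤ 1 + m)
    have e5 := mul_nonneg (by linarith : (0 : ℝ) ≤ 1 + m) f2
    nlinarith

/-- The pair of terms. -/
theorem pair_term {a b x y u v q c : ℝ} (ha : 0 < a) (hb : 0 < b)
    (h : q * (a + b) ≤ c * (b * u + a * v)) :
    q * (a * b / (a + b) * (x - y) ^ 2) ≤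
      c * (a * u * (x - (a * x + b * y) / (a + b)) ^ 2 +
        b * v * (y - (a * x + b * y) / (a + b)) ^ 2) := by
  have hab : 0 < a + b := add_pos ha hb
  have e1 : x - (a * x + b * y) / (a + b) = b * (x - y) / (a + b) := by
    field_simp
    ring
  have e2 : y - (a * x + b * y) / (a + b) = -(a * (x - y) / (a + b)) := by
    field_simp
    ring
  rw [e1, e2]
  have e3 : c * (a * u * (b * (x - y) / (a + b)) ^ 2 + b * v * (-(a * (x - y) / (a + b))) ^ 2) =
      (a * b / (a + b) * (x - y) ^ 2) * (c * (b * u + a * v) / (a + b)) := by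
    field_simp
  rw [e3, mul_comm q]
  apply mul_le_mul_of_nonneg_left
  · rw [le_div_iff₀ hab]
    exact h
  · positivity

/-- Comparison through the defect of the slowest eigenfunction, with an error. -/
theorem gap_le_of_defect_eps [Nonempty V] {w' : (V → Bool) → ℝ} (hw : ∀ σ, 0 < w σ)
    (hsym : ∀ σ, w (neg σ) = w σ)
    (hfkg : ∀ σ τ, w σ * w τ ≤ w (σ ⊓ τ) * w (σ ⊔ τ))
    (hw' : ∀ σ, 0 < w' σ) (hsym' : ∀ σ, w' (neg σ) = w' σ) {f : (V → Bool) → ℝ} {ρ : ℝ}
    (hodd : Odd' f) (hone : ip w f f = 1) (heig : ceSum w f = fun σ => ρ * f σ)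
    (hρ : ∀ g : (V → Bool) → ℝ, Odd' g → ip w g (ceSum w g) ≤ ρ * ip w g g) {ε : ℝ}
    (hε : 0 ≤ ε)
    (hd : -(((Fintype.card V : ℝ) - ρ) * ε * ip w' f f) ≤ ∑ σ, w' σ * defect w f σ) :
    gap (normalize w') ≤ (1 + ε) * gap (normalize w) := by
  have hn : (0 : ℝ) < Fintype.card V := by exact_mod_cast Fintype.card_pos
  have hlow := le_gap_of_odd hw hsym hfkg hρ
  have hup := poincare_of_gap hw' (g := f) (ip_odd_even hsym' hodd (fun _ => rfl))
  have h1 := dir_le_of_eigen hw' heig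
  have hpos : 0 < ip w' f f := by
    have h3 : ∃ σ, f σ ≠ 0 := by
      by_contra hcon
      push Not at hcon
      have : ip w f f = 0 := by
        unfold ip
        exact Finset.sum_eq_zero fun σ _ => by rw [hcon σ]; ring
      rw [hone] at this
      exact one_ne_zero this
    obtain ⟨σ, hσ⟩ := h3
    exact ip_self_pos hw' hσ
  have h3 : (2 * (Fintype.card V : ℝ) * gap (normalize w')) * ip w' f f ≤
      ((1 + ε) * (2 * ((Fintype.card V : ℝ) - ρ))) * ip w' f f := by nlinarith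
  have h4 := le_of_mul_le_mul_right h3 hpos
  have h6 := mul_le_mul_of_nonneg_left hlow (by linarith : (0 : ℝ) ≤ 1 + ε)
  have h5 : 2 * (Fintype.card V : ℝ) * gap (normalize w') ≤
      2 * (Fintype.card V : ℝ) * ((1 + ε) * gap (normalize w)) := by
    calc _ ≤ _ := h4
      _ ≤ _ := h6
      _ = _ := by ring
  exact le_of_mul_le_mul_left h5 (by positivity)

/-- **The criterion.** -/
theorem criterion (hcard : 2 ≤ Fintype.card V) (hw : ∀ σ, 0 < w σ)
    (hsym : ∀ σ, w (neg σ) = w σ)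
    (hfkg : ∀ σ τ, w σ * w τ ≤ w (σ ⊓ τ) * w (σ ⊔ τ)) {m : ℝ} (hm : 0 ≤ m)
    (hmax : ∀ σ τ, Nc σ → ¬ Nc τ → w σ ≤ m * w τ)
    (hr0 : ∀ σ, 0 < r σ) (hr1 : ∀ σ, r σ ≤ 1) (hrs : ∀ σ, r (neg σ) = r σ)
    (hrc : ∀ σ, ¬ Nc σ → r σ = 1) {q ε : ℝ} (hq0 : 0 ≤ q) (hε : 0 ≤ ε)
    (hq : ∀ σ, Nc σ → q ≤ 1 - r σ)
    (hsum : (1 + m) * ∑ σ ∈ univ.filter (fun σ : V → Bool => Nc σ), w σ * (1 - r σ) ≤
      2 * (q + (1 + m) * ε) * w (fun _ => true)) :
    gap (normalize fun σ => w σ * r σ) ≤ (1 + ε) * gap (normalize w) := by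
  have hne : Nonempty V := Fintype.card_pos_iff.1 (by omega)
  obtain ⟨f, ρ, hρ0, hodd, hmono, hone, heig, hρ⟩ := exists_eig hw hsym hfkg
  refine gap_le_of_defect_eps hw hsym hfkg (fun σ => mul_pos (hw σ) (hr0 σ))
    (fun σ => by rw [hsym, hrs]) hodd hone heig hρ hε ?_
  set n : ℝ := (Fintype.card V : ℝ) with hn
  have hlam : dir w f = 2 * (n - ρ) := by
    rw [dir_eq hw, hone, heig, ip_smul_right, hone]
    ring
  have hlam0 : 0 ≤ n - ρ := by
    have := dir_nonneg hw f
    linarith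
  have hm1 : 0 < 1 + m := by linarith
  have hpt : ∀ σ, defect w f σ = (n - ρ) * (f σ * f σ) - ∑ k, (f σ - ce w k f σ) ^ 2 := by
    intro σ
    have h5 : ∑ k, ce w k f σ = ρ * f σ := congrFun heig σ
    have e1 : ∀ k, (f σ - ce w k f σ) ^ 2 =
        f σ * f σ - f σ * ce w k f σ - ce w k f σ * (f σ - ce w k f σ) := fun k => by ring
    have e2 : ∑ k, f σ * ce w k f σ = f σ * (ρ * f σ) := by rw [← Finset.mul_sum, h5]
    have e3 : ∑ _k : V, f σ * f σ = n * (f σ * f σ) := by
      rw [Finset.sum_const, Finset.card_univ, nsmul_eq_mul]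
    unfold defect
    rw [Finset.sum_congr rfl fun k _ => e1 k, Finset.sum_sub_distrib, Finset.sum_sub_distrib,
      e2, e3]
    ring
  have h1 : ∑ σ, w σ * r σ * defect w f σ =
      ∑ σ, w σ * (1 - r σ) * ∑ k, (f σ - ce w k f σ) ^ 2 -
        (n - ρ) * ∑ σ, w σ * (1 - r σ) * (f σ * f σ) := by
    have h0 := sum_defect_zero hw f
    rw [Finset.mul_sum, ← Finset.sum_sub_distrib]
    have h2 : ∀ σ, w σ * (1 - r σ) * ∑ k, (f σ - ce w k f σ) ^ 2 -
        (n - ρ) * (w σ * (1 - r σ) * (f σ * f σ)) =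
        w σ * r σ * defect w f σ - w σ * defect w f σ := by
      intro σ
      rw [hpt σ]
      ring
    rw [Finset.sum_congr rfl fun σ _ => h2 σ, Finset.sum_sub_distrib, h0, sub_zero]
  -- the upper bound
  have hle : ∀ σ, f σ * f σ ≤ f (fun _ => true) * f (fun _ => true) := by
    intro σ
    have e1 : f σ ≤ f (fun _ => true) := hmono (fun v => by cases σ v <;> simp)
    have e2 : -f σ ≤ f (fun _ => true) := by
      rw [← hodd σ]
      exact hmono (fun v => by cases neg σ v <;> simp)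
    nlinarith
  have htop : 2 * (w (fun _ => true) * (f (fun _ => true) * f (fun _ => true))) ≤ 1 := by
    have hne' : (fun _ : V => true) ≠ neg (fun _ : V => true) := by
      intro h
      obtain ⟨v⟩ := hne
      have := congrFun h v
      simp [neg] at this
    calc 2 * (w (fun _ => true) * (f (fun _ => true) * f (fun _ => true)))
        = ∑ σ ∈ {(fun _ : V => true), neg (fun _ : V => true)}, w σ * (f σ * f σ) := by
          rw [Finset.sum_pair hne', hsym, hodd]
          ring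
      _ ≤ ∑ σ, w σ * (f σ * f σ) :=
          Finset.sum_le_sum_of_subset_of_nonneg (Finset.subset_univ _)
            (fun σ _ _ => mul_nonneg (hw σ).le (mul_self_nonneg _))
      _ = 1 := hone
  set F : ℝ := f (fun _ => true) * f (fun _ => true) with hF
  have hF0 : 0 ≤ F := mul_self_nonneg _
  -- the norm for the new weight
  have hbot : 2 * (w (fun _ => true) * F) ≤ ip (fun σ => w σ * r σ) f f := by
    have hne' : (fun _ : V => true) ≠ neg (fun _ : V => true) := by
      intro h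
      obtain ⟨v⟩ := hne
      have := congrFun h v
      simp [neg] at this
    have hr : r (fun _ => true) = 1 := hrc _ (by rintro ⟨u, v, h⟩; exact h rfl)
    calc 2 * (w (fun _ => true) * F)
        = ∑ σ ∈ {(fun _ : V => true), neg (fun _ : V => true)}, w σ * r σ * (f σ * f σ) := by
          rw [Finset.sum_pair hne', hsym, hodd, hrs, hr, hF]
          ring
      _ ≤ ∑ σ, w σ * r σ * (f σ * f σ) :=
          Finset.sum_le_sum_of_subset_of_nonneg (Finset.subset_univ _)
            (fun σ _ _ => mul_nonneg (mul_pos (hw σ) (hr0 σ)).le (mul_self_nonneg _))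
  have h2 : (1 + m) * ∑ σ, w σ * (1 - r σ) * (f σ * f σ) ≤
      q + (1 + m) * ε * ip (fun σ => w σ * r σ) f f := by
    have e1 : ∑ σ, w σ * (1 - r σ) * (f σ * f σ) =
        ∑ σ ∈ univ.filter (fun σ : V → Bool => Nc σ), w σ * (1 - r σ) * (f σ * f σ) := by
      symm
      apply Finset.sum_subset (Finset.filter_subset _ _)
      intro σ _ hσ
      rw [mem_filter] at hσ
      rw [hrc σ (fun h => hσ ⟨mem_univ _, h⟩)]
      ring
    rw [e1]
    have e2 : ∑ σ ∈ univ.filter (fun σ : V → Bool => Nc σ), w σ * (1 - r σ) * (f σ * f σ) ≤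
        (∑ σ ∈ univ.filter (fun σ : V → Bool => Nc σ), w σ * (1 - r σ)) *
          (f (fun _ => true) * f (fun _ => true)) := by
      rw [Finset.sum_mul]
      exact Finset.sum_le_sum fun σ _ => mul_le_mul_of_nonneg_left (hle σ)
        (mul_nonneg (hw σ).le (sub_nonneg.2 (hr1 σ)))
    calc (1 + m) * ∑ σ ∈ univ.filter (fun σ : V → Bool => Nc σ), w σ * (1 - r σ) * (f σ * f σ)
        ≤ (1 + m) * ((∑ σ ∈ univ.filter (fun σ : V → Bool => Nc σ), w σ * (1 - r σ)) *
          (f (fun _ => true) * f (fun _ => true))) := mul_le_mul_of_nonneg_left e2 hm1.le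
      _ = ((1 + m) * ∑ σ ∈ univ.filter (fun σ : V → Bool => Nc σ), w σ * (1 - r σ)) *
          (f (fun _ => true) * f (fun _ => true)) := by ring
      _ ≤ 2 * (q + (1 + m) * ε) * w (fun _ => true) * F :=
          mul_le_mul_of_nonneg_right hsum (mul_self_nonneg _)
      _ = q * (2 * (w (fun _ => true) * F)) +
          (1 + m) * ε * (2 * (w (fun _ => true) * F)) := by ring
      _ ≤ q * 1 + (1 + m) * ε * ip (fun σ => w σ * r σ) f f :=
          add_le_add (mul_le_mul_of_nonneg_left htop hq0)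
            (mul_le_mul_of_nonneg_left hbot (mul_nonneg hm1.le hε))
      _ = _ := by ring
  -- the lower bound
  have h3 : q * (n - ρ) ≤ (1 + m) * ∑ σ, w σ * (1 - r σ) * ∑ k, (f σ - ce w k f σ) ^ 2 := by
    have e1 : ∑ σ, w σ * (1 - r σ) * ∑ k, (f σ - ce w k f σ) ^ 2 =
        ∑ k, ∑ σ, w σ * (1 - r σ) * (f σ - ce w k f σ) ^ 2 := by
      rw [Finset.sum_comm]
      exact Finset.sum_congr rfl fun σ _ => by rw [Finset.mul_sum]
    have e2 : dir w f = ∑ k, ∑ σ, w σ * w (flip k σ) / (w σ + w (flip k σ)) *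
        (f σ - f (flip k σ)) ^ 2 := by
      unfold dir
      rw [Finset.sum_comm]
    have e3 : q * (n - ρ) = ∑ k, (∑ σ, q * (w σ * w (flip k σ) /
        (w σ + w (flip k σ)) * (f σ - f (flip k σ)) ^ 2)) / 2 := by
      have : q * (n - ρ) = q / 2 * dir w f := by rw [hlam]; ring
      rw [this, e2, Finset.mul_sum]
      refine Finset.sum_congr rfl fun k _ => ?_
      rw [← Finset.mul_sum]
      ring
    rw [e1, e3, Finset.mul_sum]
    refine Finset.sum_le_sum fun k _ => ?_
    have e4 : (1 + m) * ∑ σ, w σ * (1 - r σ) * (f σ - ce w k f σ) ^ 2 =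
        (∑ σ, (1 + m) * (w σ * (1 - r σ) * (f σ - ce w k f σ) ^ 2 +
          w (flip k σ) * (1 - r (flip k σ)) * (f (flip k σ) - ce w k f σ) ^ 2)) / 2 := by
      rw [← Finset.mul_sum, Finset.sum_add_distrib]
      have h4 := sum_flip k (fun σ => w σ * (1 - r σ) * (f σ - ce w k f σ) ^ 2)
      have h5 : ∑ σ, w (flip k σ) * (1 - r (flip k σ)) * (f (flip k σ) - ce w k f σ) ^ 2 =
          ∑ σ, w (flip k σ) * (1 - r (flip k σ)) *
            (f (flip k σ) - ce w k f (flip k σ)) ^ 2 :=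
        Finset.sum_congr rfl fun σ _ => by rw [ce_flip]
      rw [h5, h4]
      ring
    rw [e4]
    apply div_le_div_of_nonneg_right _ (by norm_num)
    refine Finset.sum_le_sum fun σ _ => ?_
    have h6 := pair_term (x := f σ) (y := f (flip k σ)) (hw σ) (hw (flip k σ))
      (bracket hcard hw hm hmax hr1 hq0 hq k σ)
    exact h6
  rw [h1]
  have h4 := mul_le_mul_of_nonneg_left h2 hlam0
  have h5 : (1 + m) * (-((n - ρ) * ε * ip (fun σ => w σ * r σ) f f)) ≤
      (1 + m) * (∑ σ, w σ * (1 - r σ) * ∑ k, (f σ - ce w k f σ) ^ 2 -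
      (n - ρ) * ∑ σ, w σ * (1 - r σ) * (f σ * f σ)) := by linarith
  exact le_of_mul_le_mul_left h5 hm1

end Pool.Agent.Lib.MP_f82811_pr.LT
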