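import Pool.Agent.Lib.MP_f82811_pr.LT.Count

/-!
# Low temperature: elementary inequalities
-/

set_option autoImplicit false

namespace Pool.Agent.Lib.MP_f82811_pr.LT

/-- Convexity of the exponential function between `0` and `a`. -/
theorem exp_conv {t : ℝ} (a : ℝ) (h0 : 0 ≤ t) (h1 : t ≤ 1) :
    Real.exp (t * a) ≤ t * Real.exp a + (1 - t) := by
  have h := convexOn_exp.2 (Set.mem_univ a) (Set.mem_univ (0 : ℝ)) h0 (sub_nonneg.2 h1)
    (by ring)
  simp only [smul_eq_mul, mul_zero, add_zero, Real.exp_zero, mul_one] at h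
  exact h

theorem one_sub_exp_le {x y : ℝ} (hy : 0 < y) (hxy : y ≤ x) :
    1 - Real.exp (-x) ≤ x / y * (1 - Real.exp (-y)) := by
  have hx : 0 < x := lt_of_lt_of_le hy hxy
  have h := exp_conv (t := y / x) (-x) (div_nonneg hy.le hx.le) ((div_le_one hx).2 hxy)
  have e : y / x * -x = -y := by field_simp
  rw [e] at h
  have h2 : y / x * (1 - Real.exp (-x)) ≤ 1 - Real.exp (-y) := by linarith
  have h3 := mul_le_mul_of_nonneg_left h2 (div_nonneg hx.le hy.le)
  calc 1 - Real.exp (-x) = x / y * (y / x * (1 - Real.exp (-x))) := by field_simp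
    _ ≤ _ := h3

theorem mul_exp_neg_le (x : ℝ) : x * Real.exp (-x) ≤ Real.exp (-1) := by
  have h1 := Real.add_one_le_exp (x - 1)
  have h2 : x ≤ Real.exp (x - 1) := by linarith
  calc x * Real.exp (-x) ≤ Real.exp (x - 1) * Real.exp (-x) :=
        mul_le_mul_of_nonneg_right h2 (Real.exp_pos _).le
    _ = Real.exp (-1) := by rw [← Real.exp_add]; congr 1; ring

/-- `Gn` is at most `2 (exp (x ^ 2 / 2) - 1)`, `x = n exp (-y)`. -/
theorem Gn_le (n : ℕ) {y : ℝ} (hy : 0 ≤ y) :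
    Gn n y ≤ 2 * (Real.exp ((n * Real.exp (-y)) ^ 2 / 2) - 1) := by
  set z : ℝ := Real.exp (-y) with hz
  have hz0 : 0 < z := Real.exp_pos _
  have hz1 : z ≤ 1 := Real.exp_le_one_iff.2 (by linarith)
  have h1 : (1 + z) ^ n ≤ Real.exp (n * z) := by
    rw [Real.exp_nat_mul]
    exact pow_le_pow_left₀ (by linarith) (by linarith [Real.add_one_le_exp z]) n
  have h2 : (1 - z) ^ n ≤ Real.exp (-(n * z)) := by
    have : Real.exp (-(n * z)) = Real.exp (-z) ^ n := by
      rw [← Real.exp_nat_mul]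
      congr 1
      ring
    rw [this]
    exact pow_le_pow_left₀ (by linarith) (by linarith [Real.add_one_le_exp (-z)]) n
  have h3 := Real.cosh_le_exp_half_sq (n * z)
  rw [Real.cosh_eq] at h3
  unfold Gn
  rw [← hz]
  linarith

theorem exp_two_thirds : Real.exp (2 / 3) ≤ 1.95 := by
  have h1 := Real.exp_one_lt_d9
  have h0 := Real.exp_pos (1 : ℝ)
  have h2 : Real.exp (2 / 3) ^ 3 = Real.exp 1 ^ 2 := by
    rw [← Real.exp_nat_mul, ← Real.exp_nat_mul]
    congr 1
    norm_num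
  by_contra hc
  push Not at hc
  have h3 : (1.95 : ℝ) ^ 3 < Real.exp (2 / 3) ^ 3 := pow_lt_pow_left₀ hc (by norm_num) (by norm_num)
  rw [h2] at h3
  have h4 : Real.exp 1 ^ 2 < 2.7182818286 ^ 2 := pow_lt_pow_left₀ h1 h0.le (by norm_num)
  norm_num at h3 h4
  linarith

theorem exp_top : Real.exp (39 / 40) ≤ 2.652 := by
  have h1 := Real.exp_one_lt_d9
  have h2 : Real.exp (39 / 40) * Real.exp (1 / 40) = Real.exp 1 := by
    rw [← Real.exp_add]
    congr 1
    norm_num
  have h3 := Real.add_one_le_exp (1 / 40 : ℝ)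
  by_contra hc
  push Not at hc
  have h4 : (2.652 : ℝ) * (1 / 40 + 1) ≤ Real.exp (39 / 40) * Real.exp (1 / 40) :=
    mul_le_mul hc.le h3 (by norm_num) (Real.exp_pos _).le
  rw [h2] at h4
  norm_num at h4 h1
  linarith

theorem Gn_two (y : ℝ) : Gn 2 y = 2 * Real.exp (-y) ^ 2 := by
  unfold Gn
  ring

theorem Gn_three (y : ℝ) : Gn 3 y = 6 * Real.exp (-y) ^ 2 := by
  unfold Gn
  ring

/-- The numerical bound. -/
theorem Gn_bound (n : ℕ) (hn : 2 ≤ n) {κ R : ℝ} (hR : 1 ≤ R) (hκ : 1 / 3 ≤ κ)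
    (h : (n : ℝ) ^ 2 * R ≤ Real.exp (2 * κ)) :
    (1 + Real.exp (-(2 * κ))) * (R * Gn n (κ - 1 / 3)) ≤ 4 / 3 * Real.exp 1 := by
  have hn2 : (2 : ℝ) ≤ n := by exact_mod_cast hn
  have hn0 : (0 : ℝ) < n := by linarith
  have hR0 : 0 < R := by linarith
  have hb1 := exp_two_thirds
  have hb2 := Real.exp_one_gt_d9
  set E : ℝ := Real.exp (-(2 * κ)) with hE
  have hE0 : 0 < E := Real.exp_pos _
  have hnE : (n : ℝ) ^ 2 * R * E ≤ 1 := by
    have h2 := mul_le_mul_of_nonneg_right h hE0.le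
    rw [hE, ← Real.exp_add, add_neg_cancel, Real.exp_zero] at h2
    rw [hE]
    exact h2
  have hn2E : (n : ℝ) ^ 2 * E ≤ 1 := by
    have h3 : (n : ℝ) ^ 2 * E ≤ (n : ℝ) ^ 2 * E * R :=
      le_mul_of_one_le_right (by positivity) hR
    linarith
  have hz : Real.exp (-(κ - 1 / 3)) ^ 2 = Real.exp (2 / 3) * E := by
    rw [hE, ← Real.exp_nat_mul, ← Real.exp_add]
    congr 1
    push_cast
    ring
  have hC0 := Real.exp_pos (2 / 3 : ℝ)
  rcases Nat.lt_or_ge n 4 with hlt | hge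
  · have hcase : n = 2 ∨ n = 3 := by omega
    have key : R * Gn n (κ - 1 / 3) ≤ 2 / 3 * Real.exp (2 / 3) := by
      rcases hcase with rfl | rfl
      · rw [Gn_two, hz]
        push_cast at hnE
        have e1 : R * (2 * (Real.exp (2 / 3) * E)) =
            Real.exp (2 / 3) / 2 * ((2 : ℝ) ^ 2 * R * E) := by ring
        rw [e1]
        have e2 : Real.exp (2 / 3) / 2 * ((2 : ℝ) ^ 2 * R * E) ≤ Real.exp (2 / 3) / 2 * 1 :=
          mul_le_mul_of_nonneg_left hnE (by positivity)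
        linarith
      · rw [Gn_three, hz]
        push_cast at hnE
        have e1 : R * (6 * (Real.exp (2 / 3) * E)) =
            2 / 3 * Real.exp (2 / 3) * ((3 : ℝ) ^ 2 * R * E) := by ring
        rw [e1]
        have e2 : 2 / 3 * Real.exp (2 / 3) * ((3 : ℝ) ^ 2 * R * E) ≤
            2 / 3 * Real.exp (2 / 3) * 1 := mul_le_mul_of_nonneg_left hnE (by positivity)
        linarith
    have hE1 : E ≤ 1 / 4 := by
      have h4 : (4 : ℝ) ≤ (n : ℝ) ^ 2 := by nlinarith
      have := mul_le_mul_of_nonneg_right h4 hE0.le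
      linarith
    have e3 : (1 + E) * (R * Gn n (κ - 1 / 3)) ≤ (1 + E) * (2 / 3 * Real.exp (2 / 3)) :=
      mul_le_mul_of_nonneg_left key (by linarith)
    have e4 : (1 + E) * (2 / 3 * Real.exp (2 / 3)) ≤ (1 + 1 / 4) * (2 / 3 * 1.95) := by
      apply mul_le_mul _ _ (by positivity) (by norm_num)
      · linarith
      · linarith
    norm_num at e4 hb2
    linarith
  · have hn4 : (4 : ℝ) ≤ n := by exact_mod_cast hge
    have hE1 : E ≤ 1 / 16 := by
      have h4 : (16 : ℝ) ≤ (n : ℝ) ^ 2 := by nlinarith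
      have := mul_le_mul_of_nonneg_right h4 hE0.le
      linarith
    have h1 := Gn_le n (y := κ - 1 / 3) (by linarith)
    have h2 : ((n : ℝ) * Real.exp (-(κ - 1 / 3))) ^ 2 / 2 ≤ 1 / R * (39 / 40) := by
      rw [mul_pow, hz]
      have e1 : (n : ℝ) ^ 2 * (Real.exp (2 / 3) * E) / 2 =
          1 / R * (Real.exp (2 / 3) / 2 * ((n : ℝ) ^ 2 * R * E)) := by field_simp
      rw [e1]
      apply mul_le_mul_of_nonneg_left _ (by positivity)
      calc Real.exp (2 / 3) / 2 * ((n : ℝ) ^ 2 * R * E) ≤ Real.exp (2 / 3) / 2 * 1 :=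
            mul_le_mul_of_nonneg_left hnE (by positivity)
        _ ≤ 39 / 40 := by
          norm_num at hb1
          linarith
    have h3 := exp_conv (t := 1 / R) (39 / 40) (by positivity) ((div_le_one hR0).2 hR)
    have h4 := Real.exp_le_exp.2 h2
    have h5 : Gn n (κ - 1 / 3) ≤ 2 * (1 / R * (Real.exp (39 / 40) - 1)) := by
      calc Gn n (κ - 1 / 3) ≤ _ := h1
        _ ≤ 2 * (1 / R * (Real.exp (39 / 40) - 1)) := by
          have : 1 / R * Real.exp (39 / 40) + (1 - 1 / R) - 1 =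
              1 / R * (Real.exp (39 / 40) - 1) := by ring
          linarith
    have h6 := mul_le_mul_of_nonneg_left h5 hR0.le
    have h7 : R * (2 * (1 / R * (Real.exp (39 / 40) - 1))) = 2 * (Real.exp (39 / 40) - 1) := by
      field_simp
    rw [h7] at h6
    have h8 := exp_top
    have h9 : R * Gn n (κ - 1 / 3) ≤ 2 * (2.652 - 1) := by linarith
    have h10 : (1 + E) * (R * Gn n (κ - 1 / 3)) ≤ (1 + E) * (2 * (2.652 - 1)) :=
      mul_le_mul_of_nonneg_left h9 (by linarith)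
    have h11 : (1 + E) * (2 * (2.652 - 1)) ≤ (1 + 1 / 16) * (2 * (2.652 - 1) : ℝ) :=
      mul_le_mul_of_nonneg_right (by linarith) (by norm_num)
    norm_num at h11 hb2 h10
    linarith

end Pool.Agent.Lib.MP_f82811_pr.LT
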