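import Pool.Agent.Lib.MP_f82811_pr.HT.Graph
import Pool.Agent.Lib.MP_f82811_pr.HT.Wt
import Pool.Agent.Lib.MP_f82811_pr.LT.Crit
import Pool.Agent.Lib.MP_f82811_pr.LT.Num

/-!
# Low temperature: matrices of couplings
-/

set_option autoImplicit false

namespace Pool.Agent.Lib.MP_f82811_pr.LT

open Finset HT

variable {V : Type*} [Fintype V] [DecidableEq V]

set_option linter.unusedSectionVars false

/-- The energy in terms of the cut. -/
theorem en_eq (A : V → V → ℝ) (σ : V → Bool) : en A σ = (∑ u, ∑ v, A u v) / 2 - K A σ := by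
  have h1 : ∑ u, ∑ v, A u v * sp u σ * sp v σ = ∑ u, ∑ v, A u v - 2 * K A σ := by
    unfold K
    rw [Finset.mul_sum, ← Finset.sum_sub_distrib]
    refine Finset.sum_congr rfl fun u _ => ?_
    rw [Finset.mul_sum, ← Finset.sum_sub_distrib]
    refine Finset.sum_congr rfl fun v _ => ?_
    unfold sp
    cases σ u <;> cases σ v <;> simp [spin] <;> ring
  unfold en
  rw [h1]
  ring

theorem K_const (A : V → V → ℝ) {σ : V → Bool} (h : ¬ Nc σ) : K A σ = 0 := by
  unfold K
  refine Finset.sum_eq_zero fun u _ => Finset.sum_eq_zero fun v _ => ?_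
  rw [if_pos]
  by_contra hc
  exact h ⟨u, v, hc⟩

theorem not_nc_true : ¬ Nc (fun _ : V => true) := by
  rintro ⟨u, v, h⟩
  exact h rfl

theorem K_neg (A : V → V → ℝ) (σ : V → Bool) : K A (neg σ) = K A σ := by
  unfold K neg
  refine Finset.sum_congr rfl fun u _ => Finset.sum_congr rfl fun v _ => ?_
  simp

theorem K_add (A D : V → V → ℝ) (σ : V → Bool) :
    K (fun u v => A u v + D u v) σ = K A σ + K D σ := by
  unfold K
  rw [← Finset.sum_add_distrib]
  refine Finset.sum_congr rfl fun u _ => ?_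
  rw [← Finset.sum_add_distrib]
  refine Finset.sum_congr rfl fun v _ => ?_
  split_ifs
  · rw [add_zero]
  · rfl

theorem K_mono {A D : V → V → ℝ} (h : ∀ u v, A u v ≤ D u v) (σ : V → Bool) : K A σ ≤ K D σ := by
  unfold K
  refine Finset.sum_le_sum fun u _ => Finset.sum_le_sum fun v _ => ?_
  split_ifs
  · exact le_rfl
  · exact h u v

theorem K_le_sum {A : V → V → ℝ} (h : ∀ u v, 0 ≤ A u v) (σ : V → Bool) :
    K A σ ≤ ∑ u, ∑ v, A u v := by
  unfold K
  refine Finset.sum_le_sum fun u _ => Finset.sum_le_sum fun v _ => ?_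
  split_ifs
  · exact h u v
  · exact le_rfl

theorem W_eq (A : V → V → ℝ) (σ : V → Bool) :
    W A σ = Real.exp ((∑ u, ∑ v, A u v) / 2) * Real.exp (-K A σ) := by
  unfold W
  rw [en_eq, ← Real.exp_add]
  rfl

theorem normalize_smul {c : ℝ} (hc : c ≠ 0) (w : (V → Bool) → ℝ) :
    normalize (fun σ => c * w σ) = normalize w := by
  funext σ
  unfold normalize
  rw [← Finset.mul_sum, mul_div_mul_left _ _ hc]

/-- **The criterion for coupling matrices.** -/
theorem gap_add_eps (hcard : 2 ≤ Fintype.card V) {A D : V → V → ℝ} (hA : Coup A) (hD : Coup D)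
    {κ δ ε : ℝ} (hδ : 0 ≤ δ) (hε : 0 ≤ ε) (hcutA : ∀ σ : V → Bool, Nc σ → 2 * κ ≤ K A σ)
    (hcut : ∀ σ : V → Bool, Nc σ → 2 * δ ≤ K D σ)
    (hsum : (1 + Real.exp (-(2 * κ))) * ∑ σ ∈ univ.filter (fun σ : V → Bool => Nc σ),
      Real.exp (-K A σ) * (1 - Real.exp (-K D σ)) ≤
      2 * ((1 - Real.exp (-(2 * δ))) + (1 + Real.exp (-(2 * κ))) * ε)) :
    gap (normalize (W fun u v => A u v + D u v)) ≤ (1 + ε) * gap (normalize (W A)) := by
  set cA : ℝ := Real.exp ((∑ u, ∑ v, A u v) / 2) with hcA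
  set cD : ℝ := Real.exp ((∑ u, ∑ v, D u v) / 2) with hcD
  have hcA0 : 0 < cA := Real.exp_pos _
  have hcD0 : 0 < cD := Real.exp_pos _
  have h1 : (W fun u v => A u v + D u v) =
      fun σ => cD * (W A σ * Real.exp (-K D σ)) := by
    funext σ
    have e1 : ∑ u, ∑ v, (A u v + D u v) = ∑ u, ∑ v, A u v + ∑ u, ∑ v, D u v := by
      rw [← Finset.sum_add_distrib]
      exact Finset.sum_congr rfl fun u _ => Finset.sum_add_distrib
    rw [W_eq, W_eq, K_add, e1, add_div, Real.exp_add, neg_add, Real.exp_add, ← hcA, ← hcD]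
    ring
  rw [h1, normalize_smul hcD0.ne']
  set q : ℝ := 1 - Real.exp (-(2 * δ)) with hq
  have hq0 : 0 ≤ q := by
    rw [hq, sub_nonneg]
    exact Real.exp_le_one_iff.2 (by linarith)
  have hKD0 : ∀ σ, 0 ≤ K D σ := K_nonneg hD.nonneg
  have hm0 : 0 < Real.exp (-(2 * κ)) := Real.exp_pos _
  apply criterion hcard (W_pos A) (fun σ => W_neg σ) (W_fkg hA) hm0.le ?_
    (fun σ => Real.exp_pos _)
    (fun σ => Real.exp_le_one_iff.2 (by linarith [hKD0 σ])) (fun σ => by rw [K_neg])
    (fun σ h => by rw [K_const D h, neg_zero, Real.exp_zero]) hq0 hε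
  · intro σ h
    rw [hq]
    have : Real.exp (-K D σ) ≤ Real.exp (-(2 * δ)) :=
      Real.exp_le_exp.2 (by linarith [hcut σ h])
    linarith
  · have e4 : W A (fun _ => true) = cA := by
      rw [W_eq, K_const A not_nc_true, neg_zero, Real.exp_zero, mul_one]
    rw [e4]
    have e5 : ∑ σ ∈ univ.filter (fun σ : V → Bool => Nc σ),
        W A σ * (1 - Real.exp (-K D σ)) =
        cA * ∑ σ ∈ univ.filter (fun σ : V → Bool => Nc σ),
          Real.exp (-K A σ) * (1 - Real.exp (-K D σ)) := by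
      rw [Finset.mul_sum]
      refine Finset.sum_congr rfl fun σ _ => ?_
      rw [W_eq, ← hcA]
      ring
    rw [e5]
    have e6 := mul_le_mul_of_nonneg_left hsum hcA0.le
    linarith
  · intro σ τ hσ hτ
    rw [W_eq, W_eq, K_const A hτ, neg_zero, Real.exp_zero, mul_one,
      mul_comm (Real.exp _) (Real.exp (-K A σ))]
    apply mul_le_mul_of_nonneg_right _ hcA0.le
    exact Real.exp_le_exp.2 (by linarith [hcutA σ hσ])

/-- The linearised criterion. -/
theorem sum_lin {A D : V → V → ℝ} {κ δ : ℝ} (hδ : 0 < δ)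
    (hcut : ∀ σ : V → Bool, Nc σ → 2 * δ ≤ K D σ)
    (hsum : (1 + Real.exp (-(2 * κ))) * ∑ σ ∈ univ.filter (fun σ : V → Bool => Nc σ),
      Real.exp (-K A σ) * K D σ ≤ 4 * δ) :
    (1 + Real.exp (-(2 * κ))) * ∑ σ ∈ univ.filter (fun σ : V → Bool => Nc σ),
      Real.exp (-K A σ) * (1 - Real.exp (-K D σ)) ≤ 2 * (1 - Real.exp (-(2 * δ))) := by
  set q : ℝ := 1 - Real.exp (-(2 * δ)) with hq
  have hq0 : 0 ≤ q := by
    rw [hq, sub_nonneg]
    exact Real.exp_le_one_iff.2 (by linarith)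
  have hm0 : 0 < Real.exp (-(2 * κ)) := Real.exp_pos _
  have e1 : ∀ σ : V → Bool, Nc σ → Real.exp (-K A σ) * (1 - Real.exp (-K D σ)) ≤
      q / (2 * δ) * (Real.exp (-K A σ) * K D σ) := by
    intro σ h
    have e2 := one_sub_exp_le (by linarith : (0 : ℝ) < 2 * δ) (hcut σ h)
    rw [← hq] at e2
    calc Real.exp (-K A σ) * (1 - Real.exp (-K D σ))
        ≤ Real.exp (-K A σ) * (K D σ / (2 * δ) * q) :=
          mul_le_mul_of_nonneg_left e2 (Real.exp_pos _).le
      _ = _ := by ring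
  have e5 : ∑ σ ∈ univ.filter (fun σ : V → Bool => Nc σ),
      Real.exp (-K A σ) * (1 - Real.exp (-K D σ)) ≤
      q / (2 * δ) * ∑ σ ∈ univ.filter (fun σ : V → Bool => Nc σ),
        (Real.exp (-K A σ) * K D σ) := by
    rw [Finset.mul_sum]
    exact Finset.sum_le_sum fun σ hσ => e1 σ (mem_filter.1 hσ).2
  calc (1 + Real.exp (-(2 * κ))) * ∑ σ ∈ univ.filter (fun σ : V → Bool => Nc σ),
        Real.exp (-K A σ) * (1 - Real.exp (-K D σ))
      ≤ (1 + Real.exp (-(2 * κ))) * (q / (2 * δ) *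
        ∑ σ ∈ univ.filter (fun σ : V → Bool => Nc σ), (Real.exp (-K A σ) * K D σ)) :=
        mul_le_mul_of_nonneg_left e5 (by linarith)
    _ = q / (2 * δ) * ((1 + Real.exp (-(2 * κ))) *
        ∑ σ ∈ univ.filter (fun σ : V → Bool => Nc σ), (Real.exp (-K A σ) * K D σ)) := by
        ring
    _ ≤ q / (2 * δ) * (4 * δ) := mul_le_mul_of_nonneg_left hsum (by positivity)
    _ = 2 * q := by
        field_simp
        norm_num

/-- If all cuts of the increment vanish, nothing changes. -/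
theorem gap_add_zero {A D : V → V → ℝ} (hK : ∀ σ, K D σ = 0) :
    gap (normalize (W fun u v => A u v + D u v)) = gap (normalize (W A)) := by
  have h1 : (W fun u v => A u v + D u v) =
      fun σ => Real.exp ((∑ u, ∑ v, D u v) / 2) * W A σ := by
    funext σ
    have e1 : ∑ u, ∑ v, (A u v + D u v) = ∑ u, ∑ v, A u v + ∑ u, ∑ v, D u v := by
      rw [← Finset.sum_add_distrib]
      exact Finset.sum_congr rfl fun u _ => Finset.sum_add_distrib
    rw [W_eq, W_eq, K_add, e1, add_div, Real.exp_add, hK, add_zero]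
    ring
  rw [h1, normalize_smul (Real.exp_pos _).ne']

/-- The condition on the smallest cuts implies the criterion. -/
theorem sum_le_of_cut (hcard : 2 ≤ Fintype.card V) {A D : V → V → ℝ} (hA : Coup A)
    {κ δ R : ℝ} (hR : 1 ≤ R) (hcutA : ∀ σ : V → Bool, Nc σ → 2 * κ ≤ K A σ)
    (hδ : 0 ≤ δ) (h2 : ∀ σ : V → Bool, Nc σ → κ * K D σ ≤ R * δ * K A σ)
    (h : (Fintype.card V : ℝ) ^ 2 * R ≤ Real.exp (2 * κ)) :
    (1 + Real.exp (-(2 * κ))) * ∑ σ ∈ univ.filter (fun σ : V → Bool => Nc σ),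
      Real.exp (-K A σ) * K D σ ≤ 4 * δ := by
  have hn2 : (2 : ℝ) ≤ (Fintype.card V : ℝ) := by exact_mod_cast hcard
  have hκ : 1 / 2 < κ := by
    by_contra hc
    push Not at hc
    have e1 : Real.exp (2 * κ) ≤ Real.exp 1 := Real.exp_le_exp.2 (by linarith)
    have e2 := Real.exp_one_lt_d9
    norm_num at e2
    nlinarith
  have hκ0 : 0 < κ := by linarith
  have hG := Gn_bound (Fintype.card V) hcard hR (by linarith) h
  set s : ℝ := 1 - 1 / (3 * κ) with hs
  have hs0 : 0 ≤ s := by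
    rw [hs, sub_nonneg, div_le_one (by linarith)]
    linarith
  have hsκ : s * κ = κ - 1 / 3 := by
    rw [hs]
    field_simp
  have hc := count (Fintype.card V) (by omega) V rfl (fun u v => s * A u v)
    (fun u v => by rw [hA.symm]) (fun u v => mul_nonneg hs0 (hA.nonneg u v))
    (fun u => by rw [hA.diag, mul_zero]) (κ - 1 / 3) (by linarith) (by
      intro σ hσ
      rw [K_smul, ← hsκ]
      have := mul_le_mul_of_nonneg_left (hcutA σ hσ) hs0
      linarith)
  have hKA0 : ∀ σ, 0 ≤ K A σ := K_nonneg hA.nonneg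
  have hR0 : 0 < R := by linarith
  have hm0 : 0 < Real.exp (-(2 * κ)) := Real.exp_pos _
  have e1 : ∀ σ : V → Bool, Nc σ → Real.exp (-K A σ) * K D σ ≤
      3 * δ * Real.exp (-1) * R * Real.exp (-K (fun u v => s * A u v) σ) := by
    intro σ hσ
    have e2 : K D σ ≤ R * δ / κ * K A σ := by
      rw [div_mul_eq_mul_div, le_div_iff₀ hκ0]
      linarith [h2 σ hσ]
    have e3 := mul_exp_neg_le (K A σ / (3 * κ))
    have e4 : K A σ * Real.exp (-(K A σ / (3 * κ))) ≤ 3 * κ * Real.exp (-1) := by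
      have := mul_le_mul_of_nonneg_left e3 (by linarith : (0 : ℝ) ≤ 3 * κ)
      calc K A σ * Real.exp (-(K A σ / (3 * κ))) =
          3 * κ * (K A σ / (3 * κ) * Real.exp (-(K A σ / (3 * κ)))) := by field_simp
        _ ≤ _ := this
    have e5 : Real.exp (-K A σ) =
        Real.exp (-(K A σ / (3 * κ))) * Real.exp (-K (fun u v => s * A u v) σ) := by
      rw [K_smul, ← Real.exp_add]
      congr 1
      rw [hs]
      field_simp
      ring
    have e6 : 0 ≤ Real.exp (-K (fun u v => s * A u v) σ) := (Real.exp_pos _).le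
    calc Real.exp (-K A σ) * K D σ ≤ Real.exp (-K A σ) * (R * δ / κ * K A σ) :=
          mul_le_mul_of_nonneg_left e2 (Real.exp_pos _).le
      _ = R * δ / κ * (K A σ * Real.exp (-(K A σ / (3 * κ)))) *
          Real.exp (-K (fun u v => s * A u v) σ) := by rw [e5]; ring
      _ ≤ R * δ / κ * (3 * κ * Real.exp (-1)) *
          Real.exp (-K (fun u v => s * A u v) σ) := by
          apply mul_le_mul_of_nonneg_right _ e6
          exact mul_le_mul_of_nonneg_left e4 (by positivity)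
      _ = _ := by field_simp
  have e8 : ∑ σ ∈ univ.filter (fun σ : V → Bool => Nc σ), Real.exp (-K A σ) * K D σ ≤
      3 * δ * Real.exp (-1) * (R * Gn (Fintype.card V) (κ - 1 / 3)) := by
    calc ∑ σ ∈ univ.filter (fun σ : V → Bool => Nc σ), Real.exp (-K A σ) * K D σ
        ≤ ∑ σ ∈ univ.filter (fun σ : V → Bool => Nc σ),
          3 * δ * Real.exp (-1) * R * Real.exp (-K (fun u v => s * A u v) σ) :=
          Finset.sum_le_sum fun σ hσ => e1 σ (mem_filter.1 hσ).2
      _ = 3 * δ * Real.exp (-1) * R * ∑ σ ∈ univ.filter (fun σ : V → Bool => Nc σ),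
          Real.exp (-K (fun u v => s * A u v) σ) := by rw [Finset.mul_sum]
      _ ≤ 3 * δ * Real.exp (-1) * R * Gn (Fintype.card V) (κ - 1 / 3) :=
          mul_le_mul_of_nonneg_left hc (by positivity)
      _ = _ := by ring
  calc (1 + Real.exp (-(2 * κ))) * ∑ σ ∈ univ.filter (fun σ : V → Bool => Nc σ),
        Real.exp (-K A σ) * K D σ
      ≤ (1 + Real.exp (-(2 * κ))) * (3 * δ * Real.exp (-1) *
        (R * Gn (Fintype.card V) (κ - 1 / 3))) :=
        mul_le_mul_of_nonneg_left e8 (by linarith)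
    _ = 3 * δ * Real.exp (-1) * ((1 + Real.exp (-(2 * κ))) *
        (R * Gn (Fintype.card V) (κ - 1 / 3))) := by ring
    _ ≤ 3 * δ * Real.exp (-1) * (4 / 3 * Real.exp 1) :=
        mul_le_mul_of_nonneg_left hG (by positivity)
    _ = 4 * δ * (Real.exp (-1) * Real.exp 1) := by ring
    _ = 4 * δ := by
        rw [← Real.exp_add, neg_add_cancel, Real.exp_zero, mul_one]

/-! ### Configurations as sets -/

/-- The configuration of a set. -/
def cf (S : Finset V) : V → Bool := fun v => decide (v ∈ S)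

theorem cf_filter (σ : V → Bool) : cf (univ.filter fun v => σ v = true) = σ := by
  funext v
  unfold cf
  cases h : σ v <;> simp [h]

theorem nc_cf (S : Finset V) : Nc (cf S) ↔ S.Nonempty ∧ S ≠ univ := by
  unfold Nc cf
  constructor
  · rintro ⟨u, v, h⟩
    by_cases hu : u ∈ S
    · by_cases hv : v ∈ S
      · simp [hu, hv] at h
      · exact ⟨⟨u, hu⟩, fun hS => hv (hS ▸ mem_univ v)⟩
    · by_cases hv : v ∈ S
      · exact ⟨⟨v, hv⟩, fun hS => hu (hS ▸ mem_univ u)⟩
      · simp [hu, hv] at h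
  · rintro ⟨⟨u, hu⟩, hS⟩
    obtain ⟨v, hv⟩ : ∃ v, v ∉ S := by
      by_contra hc
      push Not at hc
      exact hS (Finset.eq_univ_iff_forall.2 hc)
    exact ⟨u, v, by simp [hu, hv]⟩

/-- The double sum over the cut. -/
theorem K_cf {A : V → V → ℝ} (hs : ∀ u v, A u v = A v u) (S : Finset V) :
    K A (cf S) = 2 * ∑ u ∈ S, ∑ v ∈ Sᶜ, A u v := by
  have h1 : K A (cf S) = ∑ u ∈ S, ∑ v ∈ Sᶜ, A u v + ∑ u ∈ Sᶜ, ∑ v ∈ S, A u v := by
    unfold K
    rw [← Finset.sum_add_sum_compl S]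
    congr 1
    · refine Finset.sum_congr rfl fun u hu => ?_
      rw [← Finset.sum_add_sum_compl S]
      have e1 : ∑ v ∈ S, (if cf S u = cf S v then 0 else A u v) = 0 :=
        Finset.sum_eq_zero fun v hv => by
          unfold cf
          simp [hu, hv]
      rw [e1, zero_add]
      refine Finset.sum_congr rfl fun v hv => ?_
      have hv' := Finset.mem_compl.1 hv
      unfold cf
      simp [hu, hv']
    · refine Finset.sum_congr rfl fun u hu => ?_
      have hu' := Finset.mem_compl.1 hu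
      rw [← Finset.sum_add_sum_compl S]
      have e1 : ∑ v ∈ Sᶜ, (if cf S u = cf S v then 0 else A u v) = 0 :=
        Finset.sum_eq_zero fun v hv => by
          have hv' := Finset.mem_compl.1 hv
          unfold cf
          simp [hu', hv']
      rw [e1, add_zero]
      refine Finset.sum_congr rfl fun v hv => ?_
      unfold cf
      simp [hu', hv]
  have h2 : ∑ u ∈ Sᶜ, ∑ v ∈ S, A u v = ∑ u ∈ S, ∑ v ∈ Sᶜ, A u v := by
    rw [Finset.sum_comm]
    exact Finset.sum_congr rfl fun u _ => Finset.sum_congr rfl fun v _ => hs v u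
  rw [h1, h2]
  ring

/-- Sums over nonconstant configurations as sums over sets. -/
theorem sum_cf (F : (V → Bool) → ℝ) :
    ∑ σ ∈ univ.filter (fun σ : V → Bool => Nc σ), F σ =
      ∑ S ∈ univ.filter (fun S : Finset V => S.Nonempty ∧ S ≠ univ), F (cf S) := by
  refine Finset.sum_bij' (fun σ _ => univ.filter fun v => σ v = true) (fun S _ => cf S)
    ?_ ?_ ?_ ?_ ?_
  · intro σ hσ
    rw [mem_filter] at hσ ⊢
    refine ⟨mem_univ _, ?_⟩
    rw [← nc_cf, cf_filter]
    exact hσ.2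
  · intro S hS
    rw [mem_filter] at hS ⊢
    exact ⟨mem_univ _, (nc_cf S).2 hS.2⟩
  · intro σ _
    exact cf_filter σ
  · intro S _
    ext v
    unfold cf
    simp
  · intro σ _
    rw [cf_filter]

/-! ### Graphs -/

variable (G : SimpleGraph V) [DecidableRel G.Adj]

/-- The total coupling between `S` and its complement. -/
def cut (J : Sym2 V → ℝ) (S : Finset V) : ℝ :=
  ∑ u ∈ S, ∑ v ∈ Sᶜ, if G.Adj u v then J s(u, v) else 0

theorem K_mat {J : Sym2 V → ℝ} (hJ : ∀ e ∈ G.edgeSet, 0 ≤ J e) (S : Finset V) :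
    K (mat G J) (cf S) = 2 * cut G J S := by
  rw [K_cf (coup_mat G hJ).symm]
  rfl

/-- The error term of the comparison of `J` and `J'`; `κ` and `δ` are lower bounds for the cuts
of `J` and of `J' - J`. -/
noncomputable def err (J J' : Sym2 V → ℝ) (κ δ : ℝ) : ℝ :=
  max 0 ((∑ S ∈ univ.filter (fun S : Finset V => S.Nonempty ∧ S ≠ univ),
      Real.exp (-(2 * cut G J S)) * (1 - Real.exp (-(2 * cut G (J' - J) S)))) / 2 -
    (1 - Real.exp (-(2 * δ))) / (1 + Real.exp (-(2 * κ))))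

theorem err_nonneg (J J' : Sym2 V → ℝ) (κ δ : ℝ) : 0 ≤ err G J J' κ δ := le_max_left _ _

theorem mat_add (J J' : Sym2 V → ℝ) :
    mat G J' = fun u v => mat G J u v + mat G (J' - J) u v := by
  funext u v
  unfold mat
  split_ifs
  · rw [Pi.sub_apply]
    ring
  · rw [add_zero]

/-- The sum over the sets as a sum over the configurations. -/
theorem sum_sets (J J' : Sym2 V → ℝ) (hJ : ∀ e ∈ G.edgeSet, 0 ≤ J e ∧ J e ≤ J' e) :
    ∑ S ∈ univ.filter (fun S : Finset V => S.Nonempty ∧ S ≠ univ),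
      Real.exp (-(2 * cut G J S)) * (1 - Real.exp (-(2 * cut G (J' - J) S))) =
    ∑ σ ∈ univ.filter (fun σ : V → Bool => Nc σ),
      Real.exp (-K (mat G J) σ) * (1 - Real.exp (-K (mat G (J' - J)) σ)) := by
  rw [sum_cf]
  refine Finset.sum_congr rfl fun S _ => ?_
  rw [K_mat G (fun e he => (hJ e he).1), K_mat G (fun e he => by
    rw [Pi.sub_apply]
    linarith [(hJ e he).2])]

/-- The main comparison on graphs. -/
theorem graph_compare (J J' : Sym2 V → ℝ) (κ δ : ℝ)
    (hJ : ∀ e ∈ G.edgeSet, 0 ≤ J e ∧ J e ≤ J' e) (hδ0 : 0 ≤ δ)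
    (hδ : ∀ S : Finset V, S.Nonempty → S ≠ univ → κ ≤ cut G J S ∧ δ ≤ cut G (J' - J) S) :
    gap (gibbs G J') ≤ (1 + err G J J' κ δ) * gap (gibbs G J) ∧
    (0 ≤ κ → 1 + err G J J' κ δ ≤
      ((1 + Real.exp (-κ)) ^ Fintype.card V + (1 - Real.exp (-κ)) ^ Fintype.card V) / 2) ∧
    (∀ R : ℝ, 1 ≤ R → (Fintype.card V : ℝ) ^ 2 * R ≤ Real.exp (2 * κ) →
      (∀ S : Finset V, S.Nonempty → S ≠ univ → κ * cut G (J' - J) S ≤ R * δ * cut G J S) →
      err G J J' κ δ = 0) := by
  have hJ0 : ∀ e ∈ G.edgeSet, 0 ≤ J e := fun e he => (hJ e he).1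
  have hD0 : ∀ e ∈ G.edgeSet, 0 ≤ (J' - J) e := fun e he => by
    rw [Pi.sub_apply]
    linarith [(hJ e he).2]
  have hA := coup_mat G hJ0
  have hD := coup_mat G hD0
  have hcutA : ∀ σ : V → Bool, Nc σ → 2 * κ ≤ K (mat G J) σ := by
    intro σ hσ
    rw [← cf_filter σ] at hσ ⊢
    rw [K_mat G hJ0]
    have h1 := (nc_cf _).1 hσ
    linarith [(hδ _ h1.1 h1.2).1]
  have hcutD : ∀ σ : V → Bool, Nc σ → 2 * δ ≤ K (mat G (J' - J)) σ := by
    intro σ hσ
    rw [← cf_filter σ] at hσ ⊢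
    rw [K_mat G hD0]
    have h1 := (nc_cf _).1 hσ
    linarith [(hδ _ h1.1 h1.2).2]
  have hgap0 : 0 ≤ gap (normalize (W (mat G J))) := gap_nonneg (W_pos _)
  have herr0 := err_nonneg G J J' κ δ
  have hKD0 : ∀ σ, 0 ≤ K (mat G (J' - J)) σ := K_nonneg hD.nonneg
  have hKA0 : ∀ σ, 0 ≤ K (mat G J) σ := K_nonneg hA.nonneg
  have hm0 : 0 < Real.exp (-(2 * κ)) := Real.exp_pos _
  have hq0 : 0 ≤ 1 - Real.exp (-(2 * δ)) :=
    sub_nonneg.2 (Real.exp_le_one_iff.2 (by linarith))
  have hqm : 0 ≤ (1 - Real.exp (-(2 * δ))) / (1 + Real.exp (-(2 * κ))) :=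
    div_nonneg hq0 (by linarith)
  have hsets := sum_sets G J J' hJ
  rcases lt_or_ge (Fintype.card V) 2 with hcard | hcard
  · -- at most one vertex
    have hsub : Subsingleton V := Fintype.card_le_one_iff_subsingleton.1 (by omega)
    have hnc : ∀ σ : V → Bool, ¬ Nc σ := by
      rintro σ ⟨u, v, huv⟩
      exact huv (by rw [Subsingleton.elim u v])
    have hempty : univ.filter (fun σ : V → Bool => Nc σ) = ∅ :=
      Finset.filter_eq_empty_iff.2 fun σ _ => hnc σ
    have herr : err G J J' κ δ = 0 := by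
      unfold err
      rw [hsets, hempty, Finset.sum_empty]
      apply max_eq_left
      linarith
    rw [herr]
    refine ⟨?_, ?_, fun _ _ _ _ => rfl⟩
    · rw [gibbs_eq, gibbs_eq, weight_eq_W, weight_eq_W, mat_add G J J',
        gap_add_zero fun σ => K_const _ (hnc σ)]
      linarith
    · intro _
      have hc : Fintype.card V = 0 ∨ Fintype.card V = 1 := by omega
      rcases hc with hc | hc
      · rw [hc]; norm_num
      · rw [hc]; norm_num
  have hn2 : (2 : ℝ) ≤ (Fintype.card V : ℝ) := by exact_mod_cast hcard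
  refine ⟨?_, ?_, ?_⟩
  · rw [gibbs_eq, gibbs_eq, weight_eq_W, weight_eq_W, mat_add G J J']
    apply gap_add_eps hcard hA hD hδ0 herr0 hcutA hcutD
    rw [← hsets]
    have h1 : (∑ S ∈ univ.filter (fun S : Finset V => S.Nonempty ∧ S ≠ univ),
        Real.exp (-(2 * cut G J S)) * (1 - Real.exp (-(2 * cut G (J' - J) S)))) / 2 -
        (1 - Real.exp (-(2 * δ))) / (1 + Real.exp (-(2 * κ))) ≤ err G J J' κ δ :=
      le_max_right _ _
    have e2 := mul_le_mul_of_nonneg_left h1
      (by linarith : (0 : ℝ) ≤ 2 * (1 + Real.exp (-(2 * κ))))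
    have e3 : 2 * (1 + Real.exp (-(2 * κ))) *
        ((1 - Real.exp (-(2 * δ))) / (1 + Real.exp (-(2 * κ)))) =
        2 * (1 - Real.exp (-(2 * δ))) := by
      field_simp
    rw [mul_sub, e3] at e2
    linarith
  · intro hκ0
    have hc := count (Fintype.card V) (by omega) V rfl (mat G J) hA.symm hA.nonneg hA.diag κ
      hκ0 hcutA
    have e1 : ∑ σ ∈ univ.filter (fun σ : V → Bool => Nc σ),
        Real.exp (-K (mat G J) σ) * (1 - Real.exp (-K (mat G (J' - J)) σ)) ≤
        Gn (Fintype.card V) κ := by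
      calc _ ≤ ∑ σ ∈ univ.filter (fun σ : V → Bool => Nc σ), Real.exp (-K (mat G J) σ) := by
            refine Finset.sum_le_sum fun σ _ => ?_
            have f1 := Real.exp_pos (-K (mat G J) σ)
            have f2 := Real.exp_pos (-K (mat G (J' - J)) σ)
            have f3 := mul_pos f1 f2
            linarith
        _ ≤ Gn (Fintype.card V) κ := hc
    have e0 : 0 ≤ ∑ σ ∈ univ.filter (fun σ : V → Bool => Nc σ), Real.exp (-K (mat G J) σ) :=
      Finset.sum_nonneg fun σ _ => (Real.exp_pos _).le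
    have e2 : err G J J' κ δ ≤ Gn (Fintype.card V) κ / 2 := by
      unfold err
      rw [hsets]
      apply max_le
      · linarith
      · linarith
    unfold Gn at e2
    linarith
  · intro R hR hlog hcut
    have hκ0 : 0 < κ := by
      by_contra hc
      push Not at hc
      have e1 : Real.exp (2 * κ) ≤ 1 := Real.exp_le_one_iff.2 (by linarith)
      nlinarith
    have hcutR : ∀ σ : V → Bool, Nc σ →
        κ * K (mat G (J' - J)) σ ≤ R * δ * K (mat G J) σ := by
      intro σ hσ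
      rw [← cf_filter σ] at hσ ⊢
      rw [K_mat G hJ0, K_mat G hD0]
      have h1 := (nc_cf _).1 hσ
      linarith [hcut _ h1.1 h1.2]
    unfold err
    rw [hsets]
    apply max_eq_left
    rw [sub_nonpos]
    rcases hδ0.lt_or_eq with hδ1 | hδ1
    · have e1 := sum_lin hδ1 hcutD (sum_le_of_cut hcard hA hR hcutA hδ0 hcutR hlog)
      rw [le_div_iff₀ (by linarith)]
      linarith
    · have e1 : ∑ σ ∈ univ.filter (fun σ : V → Bool => Nc σ),
          Real.exp (-K (mat G J) σ) * (1 - Real.exp (-K (mat G (J' - J)) σ)) = 0 := by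
        refine Finset.sum_eq_zero fun σ hσ => ?_
        have e2 := hcutR σ (mem_filter.1 hσ).2
        rw [← hδ1] at e2
        have e5 : K (mat G (J' - J)) σ ≤ 0 := by
          by_contra hc
          push Not at hc
          have := mul_pos hκ0 hc
          linarith
        rw [le_antisymm e5 (hKD0 σ), neg_zero, Real.exp_zero]
        ring
      rw [e1, zero_div]
      exact hqm

end Pool.Agent.Lib.MP_f82811_pr.LT
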